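import Pool.Agent.Q280.MX.UB
import Pool.Agent.Q44.MX.StmF

/-!
# Project MX (helper44), JOB MX-UBR (helper38)

The upper bound for blocks without the hypothesis that the operators generate all endomorphisms; variant of the
proof of UB of helper280.
-/

set_option autoImplicit false
set_option linter.unusedVariables false
set_option linter.unusedSectionVars false

namespace Pool.Agent.Q38.MX

open Finset Module
open Q44.MX
open Q280.MXU (hv Tb per card_hv card_lab par)
open Pool.Agent.Y703.CQ (prs ext)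
open Q44.JQ (Dj Bk Sel)
open scoped Classical

section

variable {s V : Type} [Fintype s] [AddCommGroup V] [Module (ZMod 2) V] [Finite V] (D : Dj s V)

/-- the labels of scalars are at most half of all the labels -/
theorem scal (hPl : Pl D.ω) (hSym : D.Sym) (𝒮 : Finset (s → ZMod 2))
    (h : ∀ φ ∈ 𝒮, ∃ e : ZMod 2, (D.T φ : Module.End (ZMod 2) V) = e • 1) :
    2 * 𝒮.card ≤ 2 ^ Fintype.card s := by
  have h0 : ∃ x y, D.ω x y ≠ 0 := by
    by_contra hc
    push Not at hc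
    have h1 : ∀ x : V, x = 0 := fun x => hPl.nd x (fun y => hc x y)
    have h2 : finrank (ZMod 2) V = 0 := by
      have : Subsingleton V := ⟨fun a b => by rw [h1 a, h1 b]⟩
      exact finrank_zero_of_subsingleton
    have := hPl.dim
    omega
  obtain ⟨x, y, hxy⟩ := h0
  have hm : ∀ φ ∈ 𝒮, φ D.s₀ = 0 := by
    intro φ hφ
    obtain ⟨e, he⟩ := h φ hφ
    have h1 := hSym.adj φ x y
    have h2 : ∀ z, D.T φ z = e • z := fun z => by
      have := congrArg (fun f : Module.End (ZMod 2) V => f z) he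
      simpa using this
    rw [h2, h2, map_smul, map_smul, LinearMap.smul_apply] at h1
    have h3 : φ D.s₀ * D.ω x y = 0 := by
      have := h1.symm
      rwa [add_eq_left] at this
    exact (mul_eq_zero.mp h3).resolve_right hxy
  have hd : Disjoint 𝒮 (𝒮.image fun φ => φ + Pi.single D.s₀ 1) := by
    rw [disjoint_left]
    intro φ hφ hφ'
    obtain ⟨ψ, hψ, rfl⟩ := mem_image.1 hφ'
    have h1 := hm _ hφ
    rw [Pi.add_apply, hm _ hψ, Pi.single_eq_same, zero_add] at h1
    exact one_ne_zero h1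
  have h2 := card_le_univ (𝒮 ∪ 𝒮.image fun φ => φ + Pi.single D.s₀ 1)
  rw [card_union_of_disjoint hd, card_image_of_injective _ (add_left_injective _), Fintype.card_fun,
    ZMod.card] at h2
  omega

/-- the two types -/
theorem classify2 (hPl : Pl D.ω) (hSym : D.Sym) (𝒮 : Finset (s → ZMod 2)) :
    ∃ (c : ℕ) (S : Set (Module.End (ZMod 2) V)), Ty (2 * c) S ∧
      (c = 1 ∨ c = 2) ∧ (∀ X ∈ S, ∃ φ ∈ 𝒮, X = D.T φ) ∧ c * 𝒮.card ≤ 2 ^ Fintype.card s := by
  by_cases h1 : ∀ φ ∈ 𝒮, ∃ e : ZMod 2, (D.T φ : Module.End (ZMod 2) V) = e • 1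
  · exact ⟨2, ∅, Or.inl rfl, Or.inr rfl, by simp, scal D hPl hSym 𝒮 h1⟩
  · push Not at h1
    obtain ⟨φ, hφ, hne⟩ := h1
    refine ⟨1, (fun φ : s → ZMod 2 => (D.T φ : Module.End (ZMod 2) V)) '' 𝒮,
      Or.inr (Or.inl ⟨rfl, D.T φ, ⟨φ, hφ, rfl⟩, hne⟩), Or.inl rfl, ?_, ?_⟩
    · rintro X ⟨φ, hφ, rfl⟩
      exact ⟨φ, hφ, rfl⟩
    · have := card_le_univ 𝒮
      rw [Fintype.card_fun, ZMod.card] at this
      omega

end

theorem t_UBR (h : S_TAILB) : S_UBR := by
  intro s V _ _ _ _ D hPl hSym ε hε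
  obtain ⟨C, hC⟩ := h V D.ω hPl
  obtain ⟨δ, hδ, n₀, hn₀⟩ := par (Fintype.card s) C (2 ^ Fintype.card s) (by positivity) (by positivity)
    (one_le_pow₀ one_le_two) ε hε
  refine ⟨δ, hδ, n₀, fun U ι _ _ _ b hn hU hb k hk => ?_⟩
  set n := Fintype.card ι with hn'
  set p := (prs (univ : Finset ι)).card with hp
  set L := 2 * (Fintype.card s + Fintype.card U + 1) with hL
  set k' := k - L with hk'
  set x : ℝ := (n : ℝ) - (k : ℝ) ^ 2 / 4 with hx
  have hpar := hn₀ n (Fintype.card U) k k' hn hU hk (Nat.sub_le _ _)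
  have h1 : ∑ α : prs (univ : Finset ι) → ZMod 2,
      ((univ.filter fun σ : U ⊕ ι → ZMod 2 => k ≤ rkB D b σ α).card : ℝ) =
      ∑ σ : U ⊕ ι → ZMod 2,
        ((univ.filter fun α : prs (univ : Finset ι) → ZMod 2 => k ≤ rkB D b σ α).card : ℝ) := by
    simp only [card_filter]
    push_cast
    rw [sum_comm]
  rw [h1, ← sum_fiberwise univ (hv b (C * (k' + 1)))]
  have key : ∀ 𝒮 : Finset (s → ZMod 2),
      ∑ σ ∈ univ.filter (fun σ : U ⊕ ι → ZMod 2 => hv b (C * (k' + 1)) σ = 𝒮),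
        ((univ.filter fun α : prs (univ : Finset ι) → ZMod 2 => k ≤ rkB D b σ α).card : ℝ) ≤
      2 ^ p * ((2 : ℝ) ^ (ε * n - 2 ^ Fintype.card s) * (2 ^ x + 2 ^ (x / 4))) := by
    intro 𝒮
    obtain ⟨c, S, hT, hc, hS, hcard⟩ := classify2 D hPl hSym 𝒮
    have hc0 : 0 < c := by omega
    have hcR : (0 : ℝ) < c := by exact_mod_cast hc0
    set g : ℝ := ((C : ℝ) * (k' + 1) + 1 + 2 * k * L - (k : ℝ) ^ 2 / ((2 * c : ℕ) : ℝ)) / 2 with hg
    have e1 : ∀ σ ∈ univ.filter (fun σ : U ⊕ ι → ZMod 2 => hv b (C * (k' + 1)) σ = 𝒮),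
        ((univ.filter fun α : prs (univ : Finset ι) → ZMod 2 => k ≤ rkB D b σ α).card : ℝ) ≤
          2 ^ p * 2 ^ g := fun σ hσ =>
      per D C hC hSym b k k' L hL hk' 𝒮 (2 * c) S hT (by omega) hS σ (mem_filter.1 hσ).2
    refine (sum_le_sum e1).trans ?_
    rw [sum_const, nsmul_eq_mul]
    have e2 := card_hv b (C * (k' + 1)) 𝒮
    set m := (univ.filter fun i => b.hJ i ∈ 𝒮).card with hm
    have e3 : (m : ℝ) ≤ (n : ℝ) / c + 2 ^ Fintype.card s * δ * n := card_lab b δ hδ.le hb 𝒮 c hc0 hcard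
    have e4 : ((univ.filter fun σ : U ⊕ ι → ZMod 2 => hv b (C * (k' + 1)) σ = 𝒮).card : ℝ) ≤
        2 ^ Fintype.card U * 2 ^ m * ((n : ℝ) + 1) ^ (C * (k' + 1) * 2 ^ Fintype.card s) := by
      have e2' : (univ.filter fun σ : U ⊕ ι → ZMod 2 => hv b (C * (k' + 1)) σ = 𝒮).card ≤
          2 ^ Fintype.card U * 2 ^ m * (n + 1) ^ (C * (k' + 1) * 2 ^ Fintype.card s) := by
        convert e2
      exact_mod_cast e2'
    have hn1 : (0 : ℝ) < (n : ℝ) + 1 := by positivity
    have e5 : (2 : ℝ) ^ Fintype.card U * 2 ^ m * ((n : ℝ) + 1) ^ (C * (k' + 1) * 2 ^ Fintype.card s) =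
        2 ^ ((Fintype.card U : ℝ) + m + C * (k' + 1) * 2 ^ Fintype.card s * Real.logb 2 ((n : ℝ) + 1)) := by
      rw [Real.rpow_add zero_lt_two, Real.rpow_add zero_lt_two, Real.rpow_natCast, Real.rpow_natCast]
      congr 1
      rw [mul_comm ((C : ℝ) * (k' + 1) * 2 ^ Fintype.card s), Real.rpow_mul zero_le_two,
        Real.rpow_logb zero_lt_two (by norm_num) hn1, ← Real.rpow_natCast]
      push_cast
      rfl
    rw [e5] at e4
    calc _ ≤ (2 : ℝ) ^ ((Fintype.card U : ℝ) + m + C * (k' + 1) * 2 ^ Fintype.card s *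
          Real.logb 2 ((n : ℝ) + 1)) * (2 ^ p * 2 ^ g) := mul_le_mul_of_nonneg_right e4 (by positivity)
      _ = 2 ^ p * (2 : ℝ) ^ ((Fintype.card U : ℝ) + m + C * (k' + 1) * 2 ^ Fintype.card s *
          Real.logb 2 ((n : ℝ) + 1) + g) := by
        rw [Real.rpow_add zero_lt_two _ g]
        ring
      _ ≤ 2 ^ p * (2 : ℝ) ^ ((ε * n - 2 ^ Fintype.card s) + x / c) := by
        refine mul_le_mul_of_nonneg_left ?_ (by positivity)
        refine Real.rpow_le_rpow_of_exponent_le one_le_two ?_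
        have hx2 : x / c = n / c - (k : ℝ) ^ 2 / ((2 * c : ℕ) : ℝ) / 2 := by
          rw [hx]
          push_cast
          field_simp
          ring
        rw [hx2, hg]
        have hLR : (L : ℝ) = 2 * (Fintype.card s + Fintype.card U + 1) := by
          rw [hL]
          push_cast
          ring
        rw [hLR]
        linarith
      _ = 2 ^ p * ((2 : ℝ) ^ (ε * n - 2 ^ Fintype.card s) * 2 ^ (x / c)) := by
        rw [Real.rpow_add zero_lt_two]
      _ ≤ _ := by
        refine mul_le_mul_of_nonneg_left ?_ (by positivity)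
        exact mul_le_mul_of_nonneg_left
          (Q280.MXU.interp x c (hc.elim Or.inl fun h => Or.inr (Or.inl h))) (by positivity)
  refine (sum_le_sum fun 𝒮 _ => key 𝒮).trans (le_of_eq ?_)
  rw [sum_const, card_univ, Fintype.card_finset, Fintype.card_fun, ZMod.card, nsmul_eq_mul]
  have h2 : (2 : ℝ) ^ (ε * n) = 2 ^ (2 ^ Fintype.card s) * 2 ^ (ε * n - 2 ^ Fintype.card s) := by
    rw [← Real.rpow_natCast 2 (2 ^ Fintype.card s), ← Real.rpow_add zero_lt_two]
    congr 1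
    push_cast
    ring
  rw [h2]
  push_cast
  ring

end Pool.Agent.Q38.MX
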